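import Pool.Agent.NPX.Stmts

/-!
# Squad NPX (MP_005a41_gt), row SPB: a countable subgroup which controls both supports
-/

set_option autoImplicit false

open MeasureTheory Set Topology Pointwise

namespace Pool.Agent.NPX.H4

open Pool.Agent.LSG Pool.Agent.NPX

lemma countable_closure {K : Type} [Group K] (A : Set K) (hA : A.Countable) :
    (Subgroup.closure A : Set K).Countable := by
  have h1 : (FreeGroup.lift (Subtype.val : A → K)).range = Subgroup.closure A := by
    rw [FreeGroup.range_lift_eq_closure, Subtype.range_coe]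
  rw [← h1, MonoidHom.coe_range]
  have : Countable A := hA.to_subtype
  have : Countable (FreeGroup A) := by
    unfold FreeGroup
    infer_instance
  exact Set.countable_range _

section
variable {K : Type} [CommGroup K] [TopologicalSpace K] [IsTopologicalGroup K] [CompactSpace K]
  [MeasurableSpace K] [BorelSpace K] {G : Subgroup K} {p q : ℕ}

lemma sp_mono {c : G × Fin q → (G × Fin p) →₀ ℝ} {S0 S1 S2 : Set K} (h : Sp c S0 S1)
    (h12 : S1 ⊆ S2) : Sp c S0 S2 := by
  refine ⟨fun y i a hy hc => h12 (h.1 y i a hy hc), fun k hk s hs => ?_⟩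
  filter_upwards [h.2 k hk s hs] with x hx y i a hy hc
  obtain ⟨j, hj⟩ := hx y i a hy hc
  exact ⟨j, h12 hj⟩

end

/-- SPB -/
theorem spb (_h1 : PwrStmt) (h2 : SpaStmt) : SpbStmt := by
  intro K _ _ _ _ _ _ _ _ G hG p q T c U d hc hd
  classical
  -- the countable set of the small powers
  obtain ⟨R, hR⟩ : ∃ R : Set K, R = ⋃ k : {k : ℤ // ¬ Inf K k}, Set.range fun x : K => x ^ k.1 :=
    ⟨_, rfl⟩
  have hRc : R.Countable := by
    rw [hR]
    refine Set.countable_iUnion fun k => ?_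
    exact (Set.not_infinite.1 k.2).countable
  have hRG : R ⊆ G := by
    rw [hR]
    refine Set.iUnion_subset fun k => ?_
    rintro _ ⟨x, rfl⟩
    exact hG.fin k.1 k.2 x
  -- the step
  have step : ∀ S : {S : Subgroup K // (S : Set K).Countable ∧ S ≤ G},
      ∃ S' : {S : Subgroup K // (S : Set K).Countable ∧ S ≤ G}, S.1 ≤ S'.1 ∧
        Sp c (S.1 : Set K) (S'.1 : Set K) ∧ Sp d (S.1 : Set K) (S'.1 : Set K) := by
    rintro ⟨S, hS, hSG⟩
    obtain ⟨A, hA, hAG, hAc⟩ := h2 K G hG p q T c hc (S : Set K) hS hSG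
    obtain ⟨B, hB, hBG, hBd⟩ := h2 K G hG q p U d hd (S : Set K) hS hSG
    refine ⟨⟨Subgroup.closure ((S : Set K) ∪ A ∪ B),
      countable_closure _ ((hS.union hA).union hB), ?_⟩, ?_, ?_, ?_⟩
    · rw [Subgroup.closure_le]
      exact Set.union_subset (Set.union_subset hSG hAG) hBG
    · intro x hx
      exact Subgroup.subset_closure (Or.inl (Or.inl hx))
    · exact sp_mono hAc fun x hx => Subgroup.subset_closure (Or.inl (Or.inr hx))
    · exact sp_mono hBd fun x hx => Subgroup.subset_closure (Or.inr hx)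
  choose f hf1 hf2 hf3 using step
  obtain ⟨S0, hS0⟩ : ∃ S0 : {S : Subgroup K // (S : Set K).Countable ∧ S ≤ G},
      S0.1 = Subgroup.closure R :=
    ⟨⟨Subgroup.closure R, countable_closure R hRc, (Subgroup.closure_le G).2 hRG⟩, rfl⟩
  obtain ⟨s, hs0, hs1⟩ : ∃ s : ℕ → {S : Subgroup K // (S : Set K).Countable ∧ S ≤ G},
      s 0 = S0 ∧ ∀ n, s (n + 1) = f (s n) :=
    ⟨fun n => Nat.rec S0 (fun _ S => f S) n, rfl, fun n => rfl⟩
  have hmono : Monotone fun n => (s n).1 := by
    refine monotone_nat_of_le_succ fun n => ?_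

    rw [hs1]
    exact hf1 (s n)
  have hdir : Directed (· ≤ ·) fun n => (s n).1 := hmono.directed_le
  have hcoe : ((⨆ n, (s n).1 : Subgroup K) : Set K) = ⋃ n, ((s n).1 : Set K) :=
    Subgroup.coe_iSup_of_directed hdir
  have hmem : ∀ x, x ∈ (⨆ n, (s n).1 : Subgroup K) ↔ ∃ n, x ∈ (s n).1 := fun x =>
    Subgroup.mem_iSup_of_directed hdir
  refine ⟨⨆ n, (s n).1, ?_, ?_, ?_, ?_, ?_⟩
  · rw [hcoe]
    exact Set.countable_iUnion fun n => (s n).2.1
  · exact iSup_le fun n => (s n).2.2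
  · intro k hk x
    rw [hmem]
    refine ⟨0, ?_⟩
    rw [hs0, hS0]
    refine Subgroup.subset_closure ?_
    rw [hR]
    exact Set.mem_iUnion.2 ⟨⟨k, hk⟩, ⟨x, rfl⟩⟩
  · have hn : ∀ n, Sp c ((s n).1 : Set K) ((⨆ n, (s n).1 : Subgroup K) : Set K) := by
      intro n
      have h3 := hf2 (s n)
      rw [← hs1] at h3
      exact sp_mono h3 fun x hx => (hmem x).2 ⟨n + 1, hx⟩
    refine ⟨fun y i a hy hca => ?_, fun k hk t ht => ?_⟩
    · obtain ⟨n, hy⟩ := (hmem _).1 hy
      exact (hn n).1 y i a hy hca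
    · obtain ⟨n, ht⟩ := (hmem _).1 ht
      exact (hn n).2 k hk t ht
  · have hn : ∀ n, Sp d ((s n).1 : Set K) ((⨆ n, (s n).1 : Subgroup K) : Set K) := by
      intro n
      have h3 := hf3 (s n)
      rw [← hs1] at h3
      exact sp_mono h3 fun x hx => (hmem x).2 ⟨n + 1, hx⟩
    refine ⟨fun y i a hy hca => ?_, fun k hk t ht => ?_⟩
    · obtain ⟨n, hy⟩ := (hmem _).1 hy
      exact (hn n).1 y i a hy hca
    · obtain ⟨n, ht⟩ := (hmem _).1 ht
      exact (hn n).2 k hk t ht

end Pool.Agent.NPX.H4
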