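import Pool.Agent.NPX.Stmts

/-!
# Squad NPX (MP_005a41_gt), row TRI: the triangular argument
-/

set_option autoImplicit false

open MeasureTheory Set Topology Pointwise

namespace Pool.Agent.NPX.H4

open Pool.Agent.LSG Pool.Agent.NPX

section
variable {X Y : Type} [TopologicalSpace X] [TopologicalSpace Y]

/-- A finitely supported combination of evaluations which vanishes on all continuous functions is zero. -/
lemma ev_zero [TopologicalSpace.MetrizableSpace Y] (v : Y →₀ ℝ)
    (h : ∀ g : C(Y, ℝ), (v.sum fun y t => t * g y) = 0) : v = 0 := by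
  classical
  by_contra hv
  obtain ⟨b, hb⟩ : ∃ b, v b ≠ 0 := by
    by_contra hcon
    push Not at hcon
    exact hv (Finsupp.ext hcon)
  have hc1 : IsClosed ((v.support.erase b : Finset Y) : Set Y) :=
    (Finset.finite_toSet _).isClosed
  obtain ⟨g, hg0, hg1, -⟩ := exists_continuous_zero_one_of_isClosed hc1
    (isClosed_singleton (x := b)) (by
      rw [Set.disjoint_singleton_right]
      simp)
  have h1 := h g
  rw [Finsupp.sum, Finset.sum_eq_single b] at h1
  · rw [hg1 (Set.mem_singleton b)] at h1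
    simp at h1
    exact hb h1
  · intro a ha hab
    rw [hg0 (by
      rw [Finset.mem_coe, Finset.mem_erase]
      exact ⟨hab, ha⟩)]
    simp
  · intro hb'
    rw [Finsupp.notMem_support_iff.1 hb', zero_mul]

lemma comp_id [TopologicalSpace.MetrizableSpace Y] (T : C(X, ℝ) →ₗ[ℝ] C(Y, ℝ))
    (c : Y → X →₀ ℝ) (U : C(Y, ℝ) →ₗ[ℝ] C(X, ℝ)) (d : X → Y →₀ ℝ) (hc : Rep T c) (hd : Rep U d)
    (hTU : ∀ g, T (U g) = g) (y : Y) :
    Finsupp.linearCombination ℝ d (c y) = Finsupp.single y 1 := by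
  rw [← sub_eq_zero]
  refine ev_zero _ fun g => ?_
  have hlin : ∀ v : Y →₀ ℝ, (v.sum fun y t => t * g y) =
      Finsupp.linearCombination ℝ (fun y => g y) v := by
    intro v
    rw [Finsupp.linearCombination_apply]
    rfl
  rw [hlin, map_sub, Finsupp.linearCombination_single, one_smul]
  have h1 : Finsupp.linearCombination ℝ (fun y => g y) (Finsupp.linearCombination ℝ d (c y)) =
      T (U g) y := by
    rw [hc (U g) y, Finsupp.linearCombination_apply ℝ (c y), map_finsuppSum]
    refine Finsupp.sum_congr fun a _ => ?_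
    rw [map_smul, smul_eq_mul, hd g a, hlin]
  rw [h1, hTU, sub_self]

end

/-- TRI -/
theorem tri (h1 : PwrStmt) : TriStmt := by
  classical
  intro K _ _ _ _ _ _ _ _ G S p q T c U d x hc hd hTU hSG hxG hsm hdS hgc hgd _
  obtain ⟨p0, -, -, pmul, pUI, pU0, -, -, pUl, pUd, -⟩ := h1 K
  -- (2)
  have key2 : ∀ (k : ℤ) (s : K), s ∈ S → x ^ k * s ∈ Tp S x → Un K k := by
    rintro k s hs ⟨u, hu, s', hs', he⟩
    have h2 : x ^ (k - u) ∈ S := by
      have h3 : x ^ (k - u) = s' * s⁻¹ := by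
        rw [zpow_sub, mul_inv_eq_iff_eq_mul, mul_right_comm]
        rw [eq_mul_inv_iff_mul_eq, he]
        exact mul_comm _ _
      rw [h3]
      exact S.mul_mem hs' (S.inv_mem hs)
    have h4 : ¬ Inf K (k - u) := fun h5 => hgc.pow (k - u) h5 h2
    have h5 : ¬ Inf K (u - k) := by
      have h6 := pmul (k - u) (-1) h4
      have h7 : (k - u) * (-1) = u - k := by ring
      rwa [h7] at h6
    exact pUd u k hu h5
  -- (3)
  have key3 : ∀ (b : G × Fin q) (a : G × Fin p), (b.1 : K) ∈ Tp S x → c b a ≠ 0 →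
      ∃ (k : ℤ) (s : K), s ∈ S ∧ (a.1 : K) = x ^ k * s := by
    rintro ⟨y, i⟩ a ⟨u, hu, s, hs, he⟩ hca
    obtain ⟨j, hj⟩ := hgc.sup u (pUI u hu) s hs y i a he hca
    refine ⟨u * j, s ^ j * ((a.1 : K) * ((y : K) ^ j)⁻¹), S.mul_mem (S.zpow_mem hs j) hj, ?_⟩
    have he' : (y : K) = x ^ u * s := he
    have h2 : (y : K) ^ j = x ^ (u * j) * s ^ j := by
      rw [he', mul_zpow, ← zpow_mul]
    rw [← mul_assoc, ← h2, mul_comm (a.1 : K), mul_inv_cancel_left]
  -- (4)
  have key4 : ∀ (a : G × Fin p) (b : G × Fin q),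
      (∃ (k : ℤ) (s : K), s ∈ S ∧ (a.1 : K) = x ^ k * s) → (a.1 : K) ∉ Tp S x → d a b ≠ 0 →
      (b.1 : K) ∉ Tp S x := by
    rintro ⟨y, i⟩ b ⟨k, s, hs, he⟩ hnT hdb hbT
    have he' : (y : K) = x ^ k * s := he
    by_cases hk : Inf K k
    · obtain ⟨j, hj⟩ := hgd.sup k hk s hs y i b he hdb
      have h2 : (y : K) ^ j = x ^ (k * j) * s ^ j := by
        rw [he', mul_zpow, ← zpow_mul]
      have h3 : (b.1 : K) = x ^ (k * j) * (s ^ j * ((b.1 : K) * ((y : K) ^ j)⁻¹)) := by
        rw [← mul_assoc, ← h2, mul_comm (b.1 : K), mul_inv_cancel_left]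
      rw [h3] at hbT
      have h4 := key2 (k * j) _ (S.mul_mem (S.zpow_mem hs j) hj) hbT
      exact hnT ⟨k, pUl k j h4, s, hs, he⟩
    · have h2 : (y : K) ∈ S := by
        rw [he']
        exact S.mul_mem (hsm k hk x) hs
      have h3 := hdS y i b h2 hdb
      have h4 : (b.1 : K) = x ^ (0 : ℤ) * (b.1 : K) := by rw [zpow_zero, one_mul]
      rw [h4] at hbT
      exact pU0 (key2 0 _ h3 hbT)
  -- (5)
  have hmet : TopologicalSpace.MetrizableSpace (G × Fin q) := by
    have : TopologicalSpace.MetrizableSpace (Fin q) :=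
      TopologicalSpace.metrizableSpace_of_t3_secondCountable _
    have : TopologicalSpace.MetrizableSpace G := Topology.IsEmbedding.subtypeVal.metrizableSpace
    exact TopologicalSpace.metrizableSpace_prod
  rw [linearIndependent_iff]
  intro l hl
  obtain ⟨C, hC⟩ : ∃ C : (G × Fin p) →₀ ℝ, C = Finsupp.linearCombination ℝ
      (fun b : {b : G × Fin q // (b.1 : K) ∈ Tp S x} => c b.1) l := ⟨_, rfl⟩
  have hCa : ∀ a, C a = ∑ b ∈ l.support, l b * c b.1 a := by
    intro a
    rw [hC, Finsupp.linearCombination_apply, Finsupp.sum, Finsupp.finsetSum_apply]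
    rfl
  have hC0 : ∀ a : G × Fin p, (a.1 : K) ∈ Tp S x → C a = 0 := by
    intro a ha
    have h2 := DFunLike.congr_fun hl a
    rw [Finsupp.linearCombination_apply, Finsupp.sum, Finsupp.finsetSum_apply] at h2
    rw [hCa]
    rw [Finsupp.coe_zero, Pi.zero_apply] at h2
    rw [← h2]
    refine Finset.sum_congr rfl fun b _ => ?_
    rw [Finsupp.smul_apply, smul_eq_mul, Finsupp.filter_apply_pos (fun a : G × Fin p => (a.1 : K) ∈ Tp S x) _ ha]
  have hD : Finsupp.linearCombination ℝ d C = Finsupp.linearCombination ℝ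
      (fun b : {b : G × Fin q // (b.1 : K) ∈ Tp S x} =>
        (Finsupp.single b.1 1 : (G × Fin q) →₀ ℝ)) l := by
    rw [hC, Finsupp.linearCombination_apply ℝ l, map_finsuppSum,
      Finsupp.linearCombination_apply ℝ l]
    refine Finsupp.sum_congr fun b _ => ?_
    rw [map_smul, comp_id T c U d hc hd hTU]
  ext b
  have h2 : l b = (Finsupp.linearCombination ℝ d C) b.1 := by
    rw [hD, Finsupp.linearCombination_apply, Finsupp.sum, Finsupp.finsetSum_apply,
      Finset.sum_eq_single b]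
    · simp
    · intro b' _ hb'
      rw [Finsupp.smul_apply, Finsupp.single_apply, if_neg (fun h => hb' (Subtype.ext h)),
        smul_zero]
    · intro hb'
      rw [Finsupp.notMem_support_iff.1 hb', zero_smul, Finsupp.coe_zero, Pi.zero_apply]
  rw [h2, Finsupp.linearCombination_apply, Finsupp.sum, Finsupp.finsetSum_apply,
    Finsupp.coe_zero, Pi.zero_apply]
  refine Finset.sum_eq_zero fun a ha => ?_
  rw [Finsupp.smul_apply, smul_eq_mul]
  by_contra hne
  have hdab : d a b.1 ≠ 0 := fun h => hne (by rw [h, mul_zero])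
  have hCa0 : C a ≠ 0 := Finsupp.mem_support_iff.1 ha
  have hnT : (a.1 : K) ∉ Tp S x := fun h => hCa0 (hC0 a h)
  have hW : ∃ (k : ℤ) (s : K), s ∈ S ∧ (a.1 : K) = x ^ k * s := by
    rw [hCa] at hCa0
    obtain ⟨b', _, hb'⟩ := Finset.exists_ne_zero_of_sum_ne_zero hCa0
    exact key3 b'.1 a b'.2 fun h => hb' (by rw [h, mul_zero])
  exact key4 a b.1 hW hnT hdab b.2

end Pool.Agent.NPX.H4
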